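import Pool.Agent.Run7.h276.PMD.Defs

open Filter Topology
open scoped ENNReal

namespace Run7.h276.PMD

universe u v

variable {X : Type v} {d : ℕ}

/-- counting the points of an `ε`-separated set (for the maximum distance) in one `p`-ball. -/
theorem ball_count (ρ : X → X → ℝ) (h0 : ∀ x y, 0 ≤ ρ x y) (hs : ∀ x y, ρ x y = ρ y x)
    (htri : ∀ x y z, ρ x z ≤ ρ x y + ρ y z) {M : ℕ} (hM : 0 < M) (cell : X → Fin M)
    {ε ε' p : ℝ} (hε : 0 < ε) (hε' : 0 < ε') (hp : 1 ≤ p)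
    (hcell : ∀ x y, cell x = cell y → ρ x y < ε) (z : Fin d → X)
    (W : Finset (Fin d → X))
    (hW : ∀ w ∈ W, ∑ j, ρ (z j) (w j) ^ p ≤ d * ε' ^ p)
    (hsep : ∀ w ∈ W, ∀ w' ∈ W, w ≠ w' → ∃ j, ε ≤ ρ (w j) (w' j)) :
    (W.card : ℝ) ≤ 2 ^ d * (M : ℝ) ^ ((2 * ε' / ε) ^ p * d) := by
  classical
  have hMr : (1 : ℝ) ≤ M := by exact_mod_cast hM
  have hM0 : (0 : ℝ) < M := by linarith
  set g : (Fin d → X) → (Fin d → Option (Fin M)) := fun w j =>
    if ρ (z j) (w j) < ε / 2 then none else some (cell (w j)) with hg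
  set wt : Option (Fin M) → ℝ := fun o => if o = none then 1 else (M : ℝ)⁻¹ with hwt
  have hwt0 : ∀ o, 0 < wt o := by
    intro o
    simp only [hwt]
    split_ifs
    · exact one_pos
    · exact inv_pos.mpr hM0
  -- injectivity
  have hinj : Set.InjOn g (W : Set (Fin d → X)) := by
    intro w hw w' hw' hgg
    by_contra hne
    obtain ⟨j, hj⟩ := hsep w hw w' hw' hne
    have hj' := congrFun hgg j
    simp only [hg] at hj'
    by_cases h1 : ρ (z j) (w j) < ε / 2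
    · by_cases h2 : ρ (z j) (w' j) < ε / 2
      · have := htri (w j) (z j) (w' j)
        rw [hs (w j) (z j)] at this
        linarith
      · rw [if_pos h1, if_neg h2] at hj'
        exact absurd hj' (by simp)
    · by_cases h2 : ρ (z j) (w' j) < ε / 2
      · rw [if_neg h1, if_pos h2] at hj'
        exact absurd hj' (by simp)
      · rw [if_neg h1, if_neg h2] at hj'
        have := hcell _ _ (Option.some.inj hj')
        linarith
  -- total weight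
  have htot : ∑ f : Fin d → Option (Fin M), ∏ j, wt (f j) = 2 ^ d := by
    have h1 := Finset.prod_univ_sum (fun _ : Fin d => (Finset.univ : Finset (Option (Fin M))))
      (fun (_ : Fin d) o => wt o)
    rw [Fintype.piFinset_univ] at h1
    rw [← h1]
    have h2 : ∑ o : Option (Fin M), wt o = 2 := by
      rw [Fintype.sum_option]
      simp only [hwt, if_true]
      have : ∀ i : Fin M, (if (some i : Option (Fin M)) = none then (1 : ℝ) else (M : ℝ)⁻¹)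
          = (M : ℝ)⁻¹ := fun i => by simp
      rw [Finset.sum_congr rfl (fun i _ => this i)]
      simp only [Finset.sum_const, Finset.card_univ, Fintype.card_fin, nsmul_eq_mul]
      rw [mul_inv_cancel₀ hM0.ne']
      norm_num
    rw [h2]
    simp
  -- weight of one point
  have hone : ∀ w ∈ W, (M : ℝ) ^ (-((2 * ε' / ε) ^ p * d)) ≤ ∏ j, wt (g w j) := by
    intro w hw
    set J : Finset (Fin d) := Finset.univ.filter (fun j => ¬ ρ (z j) (w j) < ε / 2) with hJ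
    have hprod : ∏ j, wt (g w j) = ((M : ℝ)⁻¹) ^ J.card := by
      have h1 : ∀ j, wt (g w j) = if j ∈ J then (M : ℝ)⁻¹ else 1 := by
        intro j
        simp only [hg, hwt, hJ, Finset.mem_filter, Finset.mem_univ, true_and]
        by_cases h1 : ρ (z j) (w j) < ε / 2
        · simp [h1]
        · simp [h1]
      rw [Finset.prod_congr rfl (fun j _ => h1 j), Finset.prod_ite_mem, Finset.univ_inter,
        Finset.prod_const]
    have hcard : (J.card : ℝ) ≤ (2 * ε' / ε) ^ p * d := by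
      have h1 : (J.card : ℝ) * (ε / 2) ^ p ≤ d * ε' ^ p := by
        calc (J.card : ℝ) * (ε / 2) ^ p = ∑ j ∈ J, (ε / 2) ^ p := by
              rw [Finset.sum_const, nsmul_eq_mul]
          _ ≤ ∑ j ∈ J, ρ (z j) (w j) ^ p := by
              refine Finset.sum_le_sum fun j hj => ?_
              have hj' := (Finset.mem_filter.mp hj).2
              exact Real.rpow_le_rpow (by positivity) (not_lt.mp hj') (by linarith)
          _ ≤ ∑ j, ρ (z j) (w j) ^ p :=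
              Finset.sum_le_sum_of_subset_of_nonneg (Finset.subset_univ _)
                (fun j _ _ => Real.rpow_nonneg (h0 _ _) _)
          _ ≤ d * ε' ^ p := hW w hw
      have h2 : (0 : ℝ) < (ε / 2) ^ p := Real.rpow_pos_of_pos (by positivity) _
      have h3 : (2 * ε' / ε) ^ p * (ε / 2) ^ p = ε' ^ p := by
        rw [← Real.mul_rpow (by positivity) (by positivity)]
        congr 1
        field_simp
      have h4 : (J.card : ℝ) * (ε / 2) ^ p ≤ ((2 * ε' / ε) ^ p * d) * (ε / 2) ^ p := by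
        calc (J.card : ℝ) * (ε / 2) ^ p ≤ d * ε' ^ p := h1
          _ = ((2 * ε' / ε) ^ p * d) * (ε / 2) ^ p := by rw [← h3]; ring
      exact le_of_mul_le_mul_right h4 h2
    rw [hprod, inv_pow, ← Real.rpow_natCast, ← Real.rpow_neg hM0.le]
    exact Real.rpow_le_rpow_of_exponent_le hMr (by linarith)
  -- sum
  have hsum : (W.card : ℝ) * (M : ℝ) ^ (-((2 * ε' / ε) ^ p * d)) ≤ 2 ^ d := by
    calc (W.card : ℝ) * (M : ℝ) ^ (-((2 * ε' / ε) ^ p * d))
        = ∑ w ∈ W, (M : ℝ) ^ (-((2 * ε' / ε) ^ p * d)) := by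
          rw [Finset.sum_const, nsmul_eq_mul]
      _ ≤ ∑ w ∈ W, ∏ j, wt (g w j) := Finset.sum_le_sum hone
      _ = ∑ f ∈ W.image g, ∏ j, wt (f j) := by
          rw [Finset.sum_image hinj]
      _ ≤ ∑ f : Fin d → Option (Fin M), ∏ j, wt (f j) :=
          Finset.sum_le_sum_of_subset_of_nonneg (Finset.subset_univ _)
            (fun f _ _ => Finset.prod_nonneg fun j _ => (hwt0 _).le)
      _ = 2 ^ d := htot
  have hpos : (0 : ℝ) < (M : ℝ) ^ ((2 * ε' / ε) ^ p * d) := Real.rpow_pos_of_pos hM0 _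
  rw [Real.rpow_neg hM0.le] at hsum
  calc (W.card : ℝ) = (W.card : ℝ) * ((M : ℝ) ^ ((2 * ε' / ε) ^ p * d))⁻¹ *
        (M : ℝ) ^ ((2 * ε' / ε) ^ p * d) := by
        rw [mul_assoc, inv_mul_cancel₀ hpos.ne', mul_one]
    _ ≤ 2 ^ d * (M : ℝ) ^ ((2 * ε' / ε) ^ p * d) := by gcongr

theorem rhoP_top (ρ : X → X → ℝ) (φ ψ : Fin d → X) :
    rhoP ρ ∞ φ ψ = ⨆ j, ρ (φ j) (ψ j) := by simp [rhoP]

theorem rhoP_of_ne (ρ : X → X → ℝ) {p : ℝ≥0∞} (hp : p ≠ ∞) (φ ψ : Fin d → X) :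
    rhoP ρ p φ ψ = ((1 / (d : ℝ)) * ∑ j, ρ (φ j) (ψ j) ^ p.toReal) ^ (1 / p.toReal) := by
  simp [rhoP, hp]

/-- `ρ_p ≤ ρ_∞`. -/
theorem rhoP_le_top (ρ : X → X → ℝ) (h0 : ∀ x y, 0 ≤ ρ x y) {p : ℝ≥0∞} (hp1 : 1 ≤ p)
    (φ ψ : Fin d → X) : rhoP ρ p φ ψ ≤ rhoP ρ ∞ φ ψ := by
  by_cases hp : p = ∞
  · rw [hp]
  rw [rhoP_of_ne ρ hp, rhoP_top]
  have hp0 : (0 : ℝ) < p.toReal := ENNReal.toReal_pos (by positivity) hp
  rcases Nat.eq_zero_or_pos d with hd | hd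
  · subst hd
    simp [Real.zero_rpow (inv_ne_zero hp0.ne')]
  have hS : ∀ j, ρ (φ j) (ψ j) ≤ ⨆ j, ρ (φ j) (ψ j) := fun j =>
    le_ciSup (f := fun j => ρ (φ j) (ψ j)) (Set.finite_range _).bddAbove j
  have hS0 : 0 ≤ ⨆ j, ρ (φ j) (ψ j) := (h0 _ _).trans (hS ⟨0, hd⟩)
  have hd0 : (0 : ℝ) < d := by exact_mod_cast hd
  have h1 : (1 / (d : ℝ)) * ∑ j, ρ (φ j) (ψ j) ^ p.toReal ≤ (⨆ j, ρ (φ j) (ψ j)) ^ p.toReal := by
    calc (1 / (d : ℝ)) * ∑ j, ρ (φ j) (ψ j) ^ p.toReal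
        ≤ (1 / (d : ℝ)) * ∑ _j : Fin d, (⨆ j, ρ (φ j) (ψ j)) ^ p.toReal := by
          refine mul_le_mul_of_nonneg_left ?_ (by positivity)
          exact Finset.sum_le_sum fun j _ => Real.rpow_le_rpow (h0 _ _) (hS j) hp0.le
      _ = (⨆ j, ρ (φ j) (ψ j)) ^ p.toReal := by
          rw [Finset.sum_const, Finset.card_univ, Fintype.card_fin, nsmul_eq_mul]
          field_simp
  calc ((1 / (d : ℝ)) * ∑ j, ρ (φ j) (ψ j) ^ p.toReal) ^ (1 / p.toReal)
      ≤ ((⨆ j, ρ (φ j) (ψ j)) ^ p.toReal) ^ (1 / p.toReal) :=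
        Real.rpow_le_rpow (mul_nonneg (by positivity)
          (Finset.sum_nonneg fun j _ => Real.rpow_nonneg (h0 _ _) _)) h1 (by positivity)
    _ = ⨆ j, ρ (φ j) (ψ j) := by
        rw [← Real.rpow_mul hS0, mul_one_div_cancel hp0.ne', Real.rpow_one]

/-- monotonicity of `ρ_p` in `ρ`. -/
theorem rhoP_mono {ρ ρ' : X → X → ℝ} (h0 : ∀ x y, 0 ≤ ρ' x y) (hle : ∀ x y, ρ' x y ≤ ρ x y)
    {p : ℝ≥0∞} (hp : p ≠ ∞) (hp1 : 1 ≤ p) (φ ψ : Fin d → X) :
    rhoP ρ' p φ ψ ≤ rhoP ρ p φ ψ := by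
  rw [rhoP_of_ne ρ hp, rhoP_of_ne ρ' hp]
  have hp0 : (0 : ℝ) < p.toReal := ENNReal.toReal_pos (by positivity) hp
  refine Real.rpow_le_rpow (mul_nonneg (by positivity)
      (Finset.sum_nonneg fun j _ => Real.rpow_nonneg (h0 _ _) _)) ?_ (by positivity)
  refine mul_le_mul_of_nonneg_left ?_ (by positivity)
  exact Finset.sum_le_sum fun j _ => Real.rpow_le_rpow (h0 _ _) (hle _ _) hp0.le

/-- from `ρ_p ≤ ε'` to the sum. -/
theorem sum_le_of_rhoP_le (ρ : X → X → ℝ) (h0 : ∀ x y, 0 ≤ ρ x y) {p : ℝ≥0∞} (hp : p ≠ ∞)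
    (hp1 : 1 ≤ p) (hd : 0 < d) {ε' : ℝ} {φ ψ : Fin d → X}
    (h : rhoP ρ p φ ψ ≤ ε') : ∑ j, ρ (φ j) (ψ j) ^ p.toReal ≤ d * ε' ^ p.toReal := by
  rw [rhoP_of_ne ρ hp] at h
  have hp0 : (0 : ℝ) < p.toReal := ENNReal.toReal_pos (by positivity) hp
  have hd0 : (0 : ℝ) < d := by exact_mod_cast hd
  have hnn : 0 ≤ (1 / (d : ℝ)) * ∑ j, ρ (φ j) (ψ j) ^ p.toReal :=
    mul_nonneg (by positivity) (Finset.sum_nonneg fun j _ => Real.rpow_nonneg (h0 _ _) _)
  have h2 := Real.rpow_le_rpow (Real.rpow_nonneg hnn _) h hp0.le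
  rw [← Real.rpow_mul hnn, one_div_mul_cancel hp0.ne', Real.rpow_one] at h2
  have h3 : ∑ j, ρ (φ j) (ψ j) ^ p.toReal
      = d * ((1 / (d : ℝ)) * ∑ j, ρ (φ j) (ψ j) ^ p.toReal) := by
    field_simp
  rw [h3]
  exact mul_le_mul_of_nonneg_left h2 hd0.le

/-- a maximal separated set, when the separation numbers are finite. -/
theorem exists_max_sep (b : Bool) {α : Type*} (Y : Set α) (θ : α → α → ℝ) (ε : ℝ)
    (h : sepN b Y θ ε ≠ ∞) : ∃ Z : Finset α, ((∀ z ∈ Z, z ∈ Y) ∧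
      ∀ x ∈ Z, ∀ y ∈ Z, x ≠ y → Sep b ε (θ x y)) ∧
      ∀ Z' : Finset α, ((∀ z ∈ Z', z ∈ Y) ∧
        ∀ x ∈ Z', ∀ y ∈ Z', x ≠ y → Sep b ε (θ x y)) → Z'.card ≤ Z.card := by
  classical
  set S : Set ℕ := {n | ∃ Z : Finset α, ((∀ z ∈ Z, z ∈ Y) ∧
      ∀ x ∈ Z, ∀ y ∈ Z, x ≠ y → Sep b ε (θ x y)) ∧ Z.card = n} with hS
  have hne : S.Nonempty := ⟨0, ∅, by simp⟩
  obtain ⟨K, hK⟩ : ∃ K : ℕ, sepN b Y θ ε ≤ K := by
    obtain ⟨K, hK⟩ := ENNReal.exists_nat_gt h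
    exact ⟨K, hK.le⟩
  have hb : BddAbove S := by
    refine ⟨K, ?_⟩
    rintro n ⟨Z, hZ, rfl⟩
    have h1 : (Z.card : ℝ≥0∞) ≤ sepN b Y θ ε :=
      le_iSup₂ (f := fun (Z : Finset α) (_ : (∀ z ∈ Z, z ∈ Y) ∧
        ∀ x ∈ Z, ∀ y ∈ Z, x ≠ y → Sep b ε (θ x y)) => (Z.card : ℝ≥0∞)) Z hZ
    exact_mod_cast h1.trans hK
  obtain ⟨Z, hZ, hZc⟩ := Nat.sSup_mem hne hb
  refine ⟨Z, hZ, fun Z' hZ' => ?_⟩
  rw [hZc]
  exact le_csSup hb ⟨Z', hZ', rfl⟩

/-- The key inequality between the separation numbers of `ρ_∞` and `ρ_p`. -/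
theorem sepN_top_le (b : Bool) (ρ : X → X → ℝ) (h0 : ∀ x y, 0 ≤ ρ x y)
    (hself : ∀ x, ρ x x = 0)
    (hs : ∀ x y, ρ x y = ρ y x) (htri : ∀ x y z, ρ x z ≤ ρ x y + ρ y z) {M : ℕ} (hM : 0 < M)
    (cell : X → Fin M) {ε ε' : ℝ} (hε : 0 < ε) (hε' : 0 < ε') {p : ℝ≥0∞} (hp : p ≠ ∞)
    (hp1 : 1 ≤ p) (hd : 0 < d) (hcell : ∀ x y, cell x = cell y → ρ x y < ε)
    (Y : Set (Fin d → X)) :
    sepN b Y (rhoP ρ ∞) ε ≤ sepN b Y (rhoP ρ p) ε' *
      ENNReal.ofReal (2 ^ d * (M : ℝ) ^ ((2 * ε' / ε) ^ p.toReal * d)) := by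
  classical
  have hpr : (1 : ℝ) ≤ p.toReal := by
    have := ENNReal.toReal_mono hp hp1
    simpa using this
  have hp0 : (0 : ℝ) < p.toReal := by linarith
  have hMr : (1 : ℝ) ≤ M := by exact_mod_cast hM
  set B : ℝ := 2 ^ d * (M : ℝ) ^ ((2 * ε' / ε) ^ p.toReal * d) with hB
  have hB0 : 0 < B := by positivity
  by_cases hfin : sepN b Y (rhoP ρ p) ε' = ∞
  · rw [hfin, ENNReal.top_mul (by simpa using hB0)]
    exact le_top
  obtain ⟨Z, hZ, hZmax⟩ := exists_max_sep b Y (rhoP ρ p) ε' hfin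
  have hZle : (Z.card : ℝ≥0∞) ≤ sepN b Y (rhoP ρ p) ε' :=
    le_iSup₂ (f := fun (Z : Finset (Fin d → X)) (_ : (∀ z ∈ Z, z ∈ Y) ∧
      ∀ x ∈ Z, ∀ y ∈ Z, x ≠ y → Sep b ε' (rhoP ρ p x y)) => (Z.card : ℝ≥0∞)) Z hZ
  -- `Z` is spanning
  have hrself : ∀ y : Fin d → X, rhoP ρ p y y = 0 := by
    intro y
    rw [rhoP_of_ne ρ hp]
    simp [hself, Real.zero_rpow hp0.ne', Real.zero_rpow (inv_ne_zero hp0.ne')]
  have hrsymm : ∀ x y : Fin d → X, rhoP ρ p x y = rhoP ρ p y x := by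
    intro x y
    rw [rhoP_of_ne ρ hp, rhoP_of_ne ρ hp]
    simp only [hs (x _) (y _)]
  have hspan : ∀ y ∈ Y, ∃ z ∈ Z, rhoP ρ p z y ≤ ε' := by
    intro y hy
    by_contra hcon
    push Not at hcon
    have hyZ : y ∉ Z := by
      intro hyZ
      have := hcon y hyZ
      rw [hrself] at this
      linarith
    have h1 := hZmax (insert y Z) ⟨by
        intro z hz
        rcases Finset.mem_insert.mp hz with rfl | hz
        · exact hy
        · exact hZ.1 z hz, by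
        intro x hx x' hx' hne
        rcases Finset.mem_insert.mp hx with hxy | hxZ
        · rcases Finset.mem_insert.mp hx' with hxy' | hxZ'
          · exact absurd (hxy.trans hxy'.symm) hne
          · have := hcon x' hxZ'
            rw [hrsymm, ← hxy] at this
            exact ⟨fun _ => this, this.le⟩
        · rcases Finset.mem_insert.mp hx' with hxy' | hxZ'
          · have := hcon x hxZ
            rw [← hxy'] at this
            exact ⟨fun _ => this, this.le⟩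
          · exact hZ.2 x hxZ x' hxZ' hne⟩
    rw [Finset.card_insert_of_notMem hyZ] at h1
    omega
  refine iSup₂_le fun W hW => ?_
  -- count `W`
  have hcount : (W.card : ℝ) ≤ Z.card * B := by
    have hsub : W ⊆ Z.biUnion (fun z => W.filter (fun w => rhoP ρ p z w ≤ ε')) := by
      intro w hw
      obtain ⟨z, hz, hzw⟩ := hspan w (hW.1 w hw)
      exact Finset.mem_biUnion.mpr ⟨z, hz, Finset.mem_filter.mpr ⟨hw, hzw⟩⟩
    have h1 : W.card ≤ ∑ z ∈ Z, (W.filter (fun w => rhoP ρ p z w ≤ ε')).card :=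
      (Finset.card_le_card hsub).trans Finset.card_biUnion_le
    have h2 : ∀ z ∈ Z, ((W.filter (fun w => rhoP ρ p z w ≤ ε')).card : ℝ) ≤ B := by
      intro z _
      refine ball_count ρ h0 hs htri hM cell hε hε' hpr hcell z _ ?_ ?_
      · intro w hw
        exact sum_le_of_rhoP_le ρ h0 hp hp1 hd (Finset.mem_filter.mp hw).2
      · intro w hw w' hw' hne
        have h3 := (hW.2 w (Finset.mem_filter.mp hw).1 w' (Finset.mem_filter.mp hw').1 hne).2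
        rw [rhoP_top] at h3
        have : Nonempty (Fin d) := ⟨⟨0, hd⟩⟩
        obtain ⟨j, hj⟩ := exists_eq_ciSup_of_finite (f := fun j => ρ (w j) (w' j))
        exact ⟨j, by rw [← hj] at h3; exact h3⟩
    calc (W.card : ℝ) ≤ ((∑ z ∈ Z, (W.filter (fun w => rhoP ρ p z w ≤ ε')).card : ℕ) : ℝ) := by
          exact_mod_cast h1
      _ = ∑ z ∈ Z, ((W.filter (fun w => rhoP ρ p z w ≤ ε')).card : ℝ) := by push_cast; rfl
      _ ≤ ∑ _z ∈ Z, B := Finset.sum_le_sum h2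
      _ = Z.card * B := by rw [Finset.sum_const, nsmul_eq_mul]
  calc (W.card : ℝ≥0∞) = ENNReal.ofReal (W.card : ℝ) := by simp
    _ ≤ ENNReal.ofReal (Z.card * B) := ENNReal.ofReal_le_ofReal hcount
    _ = (Z.card : ℝ≥0∞) * ENNReal.ofReal B := by
        rw [ENNReal.ofReal_mul (by positivity)]
        simp
    _ ≤ sepN b Y (rhoP ρ p) ε' * ENNReal.ofReal B := by gcongr

end Run7.h276.PMD
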