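import Mathlib

/-!
# Sofic approximations, `p`-metric mean dimension

Definitions, following the problem file word for word.
-/

open Filter Topology
open scoped ENNReal

namespace Run7.h276.PMD

universe u v

/-- A sofic approximation of the group `Γ`: maps `σ i : Γ → Sym(d i)` with `d i → ∞`,
asymptotically multiplicative and asymptotically free. -/
structure SoficApprox (Γ : Type u) [Group Γ] where
  d : ℕ → ℕ
  tendsto_d : Tendsto d atTop atTop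
  σ : (i : ℕ) → Γ → Equiv.Perm (Fin (d i))
  asymp_mul : ∀ s t : Γ, Tendsto
    (fun i => (Nat.card {j : Fin (d i) // σ i (s * t) j = σ i s (σ i t j)} : ℝ) / (d i : ℝ))
    atTop (𝓝 1)
  asymp_free : ∀ s : Γ, s ≠ 1 → Tendsto
    (fun i => (Nat.card {j : Fin (d i) // σ i s j = j} : ℝ) / (d i : ℝ))
    atTop (𝓝 0)

/-- `ρ` is a continuous pseudometric on `X`. -/
structure IsContPseudo {X : Type v} [TopologicalSpace X] (ρ : X → X → ℝ) : Prop where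
  self : ∀ x, ρ x x = 0
  symm : ∀ x y, ρ x y = ρ y x
  tri : ∀ x y z, ρ x z ≤ ρ x y + ρ y z
  cont : Continuous fun q : X × X => ρ q.1 q.2

/-- `ρ` is dynamically generating for the action of `Γ`. -/
def DynGen (Γ : Type u) {X : Type v} [SMul Γ X] (ρ : X → X → ℝ) : Prop :=
  ∀ x y : X, x ≠ y → ∃ s : Γ, 0 < ρ (s • x) (s • y)

/-- `ρ_p` on maps `{1,…,d} → X`, for `1 ≤ p ≤ ∞`. -/
noncomputable def rhoP {X : Type v} (ρ : X → X → ℝ) (p : ℝ≥0∞) {d : ℕ} (φ ψ : Fin d → X) : ℝ :=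
  if p = ∞ then ⨆ j, ρ (φ j) (ψ j)
  else ((1 / (d : ℝ)) * ∑ j, ρ (φ j) (ψ j) ^ p.toReal) ^ (1 / p.toReal)

/-- `Map(ρ,F,δ,σ)`: the maps `φ` with `ρ_2(φ ∘ σ(s), sφ) ≤ δ` for all `s ∈ F`. -/
def MapSet {Γ : Type u} {X : Type v} [SMul Γ X] (ρ : X → X → ℝ) (F : Finset Γ) (δ : ℝ) {d : ℕ}
    (σ : Γ → Equiv.Perm (Fin d)) : Set (Fin d → X) :=
  {φ | ∀ s ∈ F, rhoP ρ 2 (fun j => φ (σ s j)) (fun j => s • φ j) ≤ δ}

/-- The two usual conventions for `ε`-separation: `t > ε` (`strict = true`) and `t ≥ ε`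
(`strict = false`). -/
def Sep (strict : Bool) (ε t : ℝ) : Prop := (strict = true → ε < t) ∧ ε ≤ t

/-- `N_ε(Y,θ)`: the largest cardinality of an `ε`-separated subset of `Y` for `θ`. -/
noncomputable def sepN (strict : Bool) {α : Type*} (Y : Set α) (θ : α → α → ℝ) (ε : ℝ) : ℝ≥0∞ :=
  ⨆ (Z : Finset α) (_ : (∀ z ∈ Z, z ∈ Y) ∧ ∀ x ∈ Z, ∀ y ∈ Z, x ≠ y → Sep strict ε (θ x y)),
    (Z.card : ℝ≥0∞)

/-- `mdim_{Σ,p}(ρ)`; here `ENNReal.log 0 = -∞`. -/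
noncomputable def mdimRho {Γ : Type u} [Group Γ] (Sg : SoficApprox Γ) (strict : Bool)
    {X : Type v} [SMul Γ X] (p : ℝ≥0∞) (ρ : X → X → ℝ) : EReal :=
  liminf (fun ε : ℝ => ⨅ (F : Finset Γ) (δ : ℝ) (_ : 0 < δ),
    limsup (fun i : ℕ => ENNReal.log (sepN strict (MapSet ρ F δ (Sg.σ i)) (rhoP ρ p) ε) /
      (((Sg.d i : ℝ) * Real.log (1 / ε) : ℝ) : EReal)) atTop) (𝓝[>] (0 : ℝ))

/-- The `p`-metric mean dimension `mdim_{Σ,M,p}(X,Γ)`: the infimum of `mdim_{Σ,p}(ρ)` over the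
dynamically generating continuous pseudometrics `ρ`.  For `p = ∞` it is the sofic metric mean
dimension. -/
noncomputable def mdimM {Γ : Type u} [Group Γ] (Sg : SoficApprox Γ) (strict : Bool)
    (X : Type v) [TopologicalSpace X] [SMul Γ X] (p : ℝ≥0∞) : EReal :=
  ⨅ (ρ : X → X → ℝ) (_ : IsContPseudo ρ ∧ DynGen Γ ρ), mdimRho Sg strict p ρ

end Run7.h276.PMD
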