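import Pool.Agent.Run7.h276.PMD.Tame

open Filter Topology
open scoped ENNReal

namespace Run7.h276.PMD

universe u v

/-- the number of coordinates used at scale `ε`. -/
noncomputable def nn (D ε : ℝ) : ℕ := ⌈Real.logb 2 (2 * D / ε)⌉₊

theorem nn_spec {D ε : ℝ} (hD : 0 < D) (hε : 0 < ε) : 2 * D / ε ≤ 2 ^ nn D ε := by
  have h1 : (0 : ℝ) < 2 * D / ε := by positivity
  have h2 : Real.logb 2 (2 * D / ε) ≤ (nn D ε : ℝ) := Nat.le_ceil _
  rw [Real.logb_le_iff_le_rpow (by norm_num) h1, Real.rpow_natCast] at h2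
  exact h2

theorem asym {D η p κ : ℝ} (hD : 0 < D) (hη : 0 < η) (hp : 0 < p) (hκ : 0 < κ) :
    ∀ᶠ ε in 𝓝[>] (0 : ℝ), Real.log 2 + (2 * ε ^ η) ^ p *
      Real.log (((2 ^ nn D ε + 1) ^ nn D ε : ℕ) : ℝ) ≤ κ * Real.log (1 / ε) := by
  have hl2 : 0 < Real.log 2 := Real.log_pos (by norm_num)
  have hl21 : Real.log 2 ≤ 1 := by
    have := Real.log_two_lt_d9
    linarith
  set a : ℝ := Real.log (2 * D) / Real.log 2 + 2 with ha
  set b : ℝ := 1 / Real.log 2 with hb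
  have hr : 0 < η * p / 2 := by positivity
  -- the limit
  have hid : Tendsto (fun ε : ℝ => ε) (𝓝[>] (0 : ℝ)) (𝓝 0) :=
    tendsto_nhdsWithin_of_tendsto_nhds tendsto_id
  have t1 : Tendsto (fun ε : ℝ => Real.log ε * ε ^ (η * p / 2)) (𝓝[>] 0) (𝓝 0) :=
    tendsto_log_mul_rpow_nhdsGT_zero hr
  have t2 : Tendsto (fun ε : ℝ => ε ^ (η * p / 2)) (𝓝[>] 0) (𝓝 0) := by
    have := hid.rpow_const (p := η * p / 2) (Or.inr hr.le)
    rwa [Real.zero_rpow hr.ne'] at this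
  have t3 : Tendsto (fun ε : ℝ => (2 : ℝ) ^ p * (a * ε ^ (η * p / 2) -
      b * (Real.log ε * ε ^ (η * p / 2))) ^ 2) (𝓝[>] 0) (𝓝 0) := by
    have := (((t2.const_mul a).sub (t1.const_mul b)).pow 2).const_mul ((2 : ℝ) ^ p)
    simpa using this
  have t4 : Tendsto (fun ε : ℝ => κ * Real.log (1 / ε)) (𝓝[>] 0) atTop := by
    have h1 : Tendsto (fun ε : ℝ => Real.log (1 / ε)) (𝓝[>] 0) atTop := by
      have h0 : Tendsto (fun ε : ℝ => ε⁻¹) (𝓝[>] (0 : ℝ)) atTop := tendsto_inv_nhdsGT_zero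
      have h1 := Real.tendsto_log_atTop.comp h0
      simpa only [one_div, Function.comp_def] using h1
    exact h1.const_mul_atTop hκ
  filter_upwards [self_mem_nhdsWithin, t3.eventually (gt_mem_nhds (zero_lt_one)),
    t4.eventually_ge_atTop 2, (hid.eventually (gt_mem_nhds (by positivity : 0 < 2 * D)))]
    with ε hε h3 h4 h5
  have hε : 0 < ε := hε
  have hq : (1 : ℝ) ≤ 2 * D / ε := by rw [le_div_iff₀ hε]; linarith
  have hlogb0 : 0 ≤ Real.logb 2 (2 * D / ε) := Real.logb_nonneg (by norm_num) hq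
  set n := nn D ε with hn
  have hnle : (n : ℝ) + 1 ≤ a - b * Real.log ε := by
    have h6 : (n : ℝ) < Real.logb 2 (2 * D / ε) + 1 := Nat.ceil_lt_add_one hlogb0
    have h7 : Real.logb 2 (2 * D / ε) = Real.log (2 * D) / Real.log 2 - b * Real.log ε := by
      rw [Real.logb, Real.log_div (by positivity) hε.ne', hb]
      ring
    rw [h7] at h6
    rw [ha]
    linarith
  have hlogM : Real.log (((2 ^ n + 1) ^ n : ℕ) : ℝ) ≤ ((n : ℝ) + 1) ^ 2 := by
    push_cast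
    rw [Real.log_pow]
    have h8 : Real.log ((2 : ℝ) ^ n + 1) ≤ (n + 1) * Real.log 2 := by
      have h9 : (2 : ℝ) ^ n + 1 ≤ 2 ^ (n + 1) := by
        have : (1 : ℝ) ≤ 2 ^ n := one_le_pow₀ (by norm_num)
        rw [pow_succ]; linarith
      have h10 := Real.log_le_log (by positivity) h9
      rw [Real.log_pow] at h10
      push_cast at h10
      exact h10
    have h11 : Real.log ((2 : ℝ) ^ n + 1) ≤ (n : ℝ) + 1 :=
      h8.trans (by nlinarith [(Nat.cast_nonneg n : (0 : ℝ) ≤ n)])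
    have h12 : (0 : ℝ) ≤ n := Nat.cast_nonneg n
    nlinarith
  have hpow : (2 * ε ^ η) ^ p = (2 : ℝ) ^ p * (ε ^ (η * p / 2)) ^ 2 := by
    rw [Real.mul_rpow (by norm_num) (Real.rpow_nonneg hε.le _), ← Real.rpow_mul hε.le,
      ← Real.rpow_natCast, ← Real.rpow_mul hε.le]
    congr 2
    push_cast
    ring
  have hfin : (2 * ε ^ η) ^ p * Real.log (((2 ^ n + 1) ^ n : ℕ) : ℝ) ≤ 1 := by
    calc (2 * ε ^ η) ^ p * Real.log (((2 ^ n + 1) ^ n : ℕ) : ℝ)
        ≤ (2 * ε ^ η) ^ p * (a - b * Real.log ε) ^ 2 := by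
          refine mul_le_mul_of_nonneg_left (hlogM.trans ?_) (Real.rpow_nonneg (by positivity) _)
          exact pow_le_pow_left₀ (by positivity) hnle 2
      _ = (2 : ℝ) ^ p * (a * ε ^ (η * p / 2) - b * (Real.log ε * ε ^ (η * p / 2))) ^ 2 := by
          rw [hpow]; ring
      _ ≤ 1 := h3.le
  linarith

/-- logarithms of the separation numbers. -/
theorem log_sepN_le {X : Type v} {d : ℕ} (b : Bool) (ρ : X → X → ℝ) (h0 : ∀ x y, 0 ≤ ρ x y)
    (hself : ∀ x, ρ x x = 0)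
    (hs : ∀ x y, ρ x y = ρ y x) (htri : ∀ x y z, ρ x z ≤ ρ x y + ρ y z) {M : ℕ} (hM : 0 < M)
    (cell : X → Fin M) {ε ε' : ℝ} (hε : 0 < ε) (hε' : 0 < ε') {p : ℝ≥0∞} (hp : p ≠ ∞)
    (hp1 : 1 ≤ p) (hd : 0 < d) (hcell : ∀ x y, cell x = cell y → ρ x y < ε)
    (Y : Set (Fin d → X)) :
    ENNReal.log (sepN b Y (rhoP ρ ∞) ε) ≤ ENNReal.log (sepN b Y (rhoP ρ p) ε') +
      (((d : ℝ) * (Real.log 2 + (2 * ε' / ε) ^ p.toReal * Real.log M) : ℝ) : EReal) := by
  have hM0 : (0 : ℝ) < M := by exact_mod_cast hM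
  have h1 := ENNReal.log_monotone
    (sepN_top_le b ρ h0 hself hs htri hM cell hε hε' hp hp1 hd hcell Y)
  rw [ENNReal.log_mul_add] at h1
  have h2 : ENNReal.log (ENNReal.ofReal (2 ^ d * (M : ℝ) ^ ((2 * ε' / ε) ^ p.toReal * d))) =
      (((d : ℝ) * (Real.log 2 + (2 * ε' / ε) ^ p.toReal * Real.log M) : ℝ) : EReal) := by
    rw [ENNReal.log_ofReal_of_pos (by positivity)]
    congr 1
    rw [Real.log_mul (by positivity) (by positivity), Real.log_pow, Real.log_rpow hM0]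
    ring
  rw [h2] at h1
  exact h1

theorem mdimRho_top_le {Γ : Type u} [Group Γ] (Sg : SoficApprox Γ) (b : Bool) {X : Type v}
    [TopologicalSpace X] [SMul Γ X] {p : ℝ≥0∞} (hp1 : 1 ≤ p) (hp : p ≠ ∞) {ρ : X → X → ℝ}
    (hρ : IsContPseudo ρ) {D : ℝ} (hD : 0 < D)
    (hcells : ∀ ε : ℝ, 0 < ε → ∀ n : ℕ, 2 * D / ε ≤ 2 ^ n →
      ∃ cell : X → Fin ((2 ^ n + 1) ^ n), ∀ x y, cell x = cell y → ρ x y < ε) :
    mdimRho Sg b ∞ ρ ≤ mdimRho Sg b p ρ := by
  have hpr : (1 : ℝ) ≤ p.toReal := by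
    have := ENNReal.toReal_mono hp hp1
    simpa using this
  have hp0 : (0 : ℝ) < p.toReal := by linarith
  refine EReal.le_of_forall_lt_iff_le.mp fun c hc => ?_
  obtain ⟨c', hc1, hc2⟩ := EReal.lt_iff_exists_real_btwn.mp hc
  have hc2' : c' < c := by exact_mod_cast hc2
  -- choose `η`
  obtain ⟨η, hη, hηc⟩ : ∃ η : ℝ, 0 < η ∧ c' * (1 + η) < c := by
    refine ⟨(c - c') / (2 * (|c'| + 1)), by have := abs_nonneg c'; have : 0 < c - c' := by linarith
                                            positivity, ?_⟩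
    have h1 : c' * ((c - c') / (2 * (|c'| + 1))) ≤ (c - c') / 2 := by
      have h2 : 0 < |c'| + 1 := by positivity
      have h3 : c' ≤ |c'| + 1 := (le_abs_self c').trans (by linarith)
      rw [mul_div_assoc', div_le_div_iff₀ (by positivity) (by norm_num)]
      nlinarith [mul_le_mul_of_nonneg_right h3 (by linarith : (0 : ℝ) ≤ c - c')]
    have : c' * (1 + (c - c') / (2 * (|c'| + 1))) = c' + c' * ((c - c') / (2 * (|c'| + 1))) := by
      ring
    rw [this]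
    linarith
  set κ : ℝ := c - c' * (1 + η) with hκd
  have hκ : 0 < κ := by linarith
  -- change of scale
  have hη1 : 0 < 1 + η := by linarith
  have hg : Tendsto (fun ε' : ℝ => ε' ^ (1 / (1 + η))) (𝓝[>] 0) (𝓝[>] 0) := by
    rw [tendsto_nhdsWithin_iff]
    constructor
    · have hid : Tendsto (fun ε : ℝ => ε) (𝓝[>] (0 : ℝ)) (𝓝 0) :=
        tendsto_nhdsWithin_of_tendsto_nhds tendsto_id
      have hpos : 0 < 1 / (1 + η) := by positivity
      have := hid.rpow_const (p := 1 / (1 + η)) (Or.inr hpos.le)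
      rwa [Real.zero_rpow hpos.ne'] at this
    · filter_upwards [self_mem_nhdsWithin] with ε' hε'
      exact Real.rpow_pos_of_pos hε' _
  have hfreq := frequently_lt_of_liminf_lt (by isBoundedDefault) hc1
  refine liminf_le_of_frequently_le ?_
  refine hg.frequently ?_
  have hev := hg.eventually (asym (D := D) (η := η) (p := p.toReal) (κ := κ) hD hη hp0 hκ)
  have hid : Tendsto (fun ε : ℝ => ε) (𝓝[>] (0 : ℝ)) (𝓝 0) :=
    tendsto_nhdsWithin_of_tendsto_nhds tendsto_id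
  have hlt1 : ∀ᶠ ε in 𝓝[>] (0 : ℝ), ε < 1 := hid.eventually (gt_mem_nhds zero_lt_one)
  have hgt0 : ∀ᶠ ε in 𝓝[>] (0 : ℝ), 0 < ε := self_mem_nhdsWithin
  refine (hfreq.and_eventually (hev.and (hlt1.and hgt0))).mono ?_
  rintro ε' ⟨hb, hasym, hε'1, hε'0⟩
  set ε : ℝ := ε' ^ (1 / (1 + η)) with hεdef
  have hε0 : 0 < ε := Real.rpow_pos_of_pos hε'0 _
  have hε1 : ε < 1 := Real.rpow_lt_one hε'0.le hε'1 (by positivity)
  have hεε' : ε' = ε * ε ^ η := by
    have h1 : ε * ε ^ η = ε ^ (1 + η) := by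
      rw [Real.rpow_add hε0, Real.rpow_one]
    rw [h1, hεdef, ← Real.rpow_mul hε'0.le, one_div_mul_cancel hη1.ne', Real.rpow_one]
  have hL : Real.log (1 / ε') = (1 + η) * Real.log (1 / ε) := by
    have h1 : ε' = ε ^ (1 + η) := by
      rw [hεdef, ← Real.rpow_mul hε'0.le, one_div_mul_cancel hη1.ne', Real.rpow_one]
    rw [one_div, one_div, Real.log_inv, Real.log_inv, h1, Real.log_rpow hε0]
    ring
  have hLpos : 0 < Real.log (1 / ε) := by
    rw [one_div, Real.log_inv]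
    have := Real.log_neg hε0 hε1
    linarith
  have hLpos' : 0 < Real.log (1 / ε') := by rw [hL]; positivity
  simp only [iInf_lt_iff] at hb
  obtain ⟨F, δ, hδ, hlim⟩ := hb
  refine iInf_le_of_le F (iInf_le_of_le δ (iInf_le_of_le hδ ?_))
  have hev2 := eventually_lt_of_limsup_lt hlim (by isBoundedDefault)
  refine limsup_le_of_le (by isBoundedDefault) ?_
  filter_upwards [hev2, Sg.tendsto_d.eventually_gt_atTop 0] with i hi hdi
  set n := nn D ε with hn
  obtain ⟨cell, hcell⟩ := hcells ε hε0 n (nn_spec hD hε0)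
  have hMpos : 0 < (2 ^ n + 1) ^ n := by positivity
  have hd0 : (0 : ℝ) < Sg.d i := by exact_mod_cast hdi
  have hkey := log_sepN_le b ρ (ps_nonneg hρ) hρ.self hρ.symm hρ.tri hMpos cell hε0 hε'0 hp hp1
    hdi hcell (MapSet ρ F δ (Sg.σ i))
  have hq : 2 * ε' / ε = 2 * ε ^ η := by
    rw [hεε']; field_simp
  rw [hq] at hkey
  -- first inequality
  have h1 : ENNReal.log (sepN b (MapSet ρ F δ (Sg.σ i)) (rhoP ρ p) ε') ≤
      ((c' * ((Sg.d i : ℝ) * Real.log (1 / ε')) : ℝ) : EReal) := by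
    have h2 := (EReal.div_le_iff_le_mul (a := ENNReal.log
      (sepN b (MapSet ρ F δ (Sg.σ i)) (rhoP ρ p) ε'))
      (b := (((Sg.d i : ℝ) * Real.log (1 / ε') : ℝ) : EReal)) (c := (c' : EReal))
      (by exact_mod_cast (by positivity : 0 < (Sg.d i : ℝ) * Real.log (1 / ε')))
      (EReal.coe_ne_top _)).mp hi.le
    rw [← EReal.coe_mul] at h2
    rwa [mul_comm]
  rw [EReal.div_le_iff_le_mul
    (by exact_mod_cast (by positivity : 0 < (Sg.d i : ℝ) * Real.log (1 / ε)))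
    (EReal.coe_ne_top _), ← EReal.coe_mul]
  refine hkey.trans ((add_le_add_left h1 _).trans ?_)
  rw [← EReal.coe_add, EReal.coe_le_coe_iff, hL]
  have h3 : Real.log 2 + (2 * ε ^ η) ^ p.toReal *
      Real.log (((2 ^ n + 1) ^ n : ℕ) : ℝ) ≤ κ * Real.log (1 / ε) := hasym
  have h4 := mul_le_mul_of_nonneg_left h3 hd0.le
  calc c' * ((Sg.d i : ℝ) * ((1 + η) * Real.log (1 / ε))) + (Sg.d i : ℝ) * (Real.log 2 +
        (2 * ε ^ η) ^ p.toReal * Real.log (((2 ^ n + 1) ^ n : ℕ) : ℝ))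
      ≤ c' * ((Sg.d i : ℝ) * ((1 + η) * Real.log (1 / ε))) +
        (Sg.d i : ℝ) * (κ * Real.log (1 / ε)) := by linarith
    _ = (Sg.d i : ℝ) * Real.log (1 / ε) * c := by rw [hκd]; ring

end Run7.h276.PMD
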