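import Pool.Agent.Run7.h276.PMD.Count

open Filter Topology
open scoped ENNReal

namespace Run7.h276.PMD

universe u v

variable {X : Type v}

/-- the tame pseudometric below `ρ`. -/
noncomputable def tame (ρ : X → X → ℝ) (xs : ℕ → X) (x y : X) : ℝ :=
  ∑' n : ℕ, (1 / 2 : ℝ) ^ (n + 1) * |ρ x (xs n) - ρ y (xs n)|

theorem half_summable : Summable (fun n : ℕ => (1 / 2 : ℝ) ^ (n + 1)) := by
  simpa [pow_succ] using (summable_geometric_two).mul_right (1 / 2 : ℝ)

theorem half_tsum : ∑' n : ℕ, (1 / 2 : ℝ) ^ (n + 1) = 1 := by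
  simp only [pow_succ]
  rw [tsum_mul_right, tsum_geometric_two]
  norm_num

section
variable [TopologicalSpace X] {ρ : X → X → ℝ} (hρ : IsContPseudo ρ)
include hρ

theorem ps_nonneg (x y : X) : 0 ≤ ρ x y := by
  have h := hρ.tri x y x
  rw [hρ.self, hρ.symm y x] at h
  linarith

theorem ps_abs (x y a : X) : |ρ x a - ρ y a| ≤ ρ x y := by
  rw [abs_le]
  have h1 := hρ.tri x y a
  have h2 := hρ.tri y x a
  rw [hρ.symm y x] at h2
  constructor <;> linarith

theorem tame_summable (xs : ℕ → X) (x y : X) :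
    Summable (fun n : ℕ => (1 / 2 : ℝ) ^ (n + 1) * |ρ x (xs n) - ρ y (xs n)|) := by
  refine Summable.of_nonneg_of_le (fun n => by positivity) (fun n => ?_)
    (half_summable.mul_right (ρ x y))
  exact mul_le_mul_of_nonneg_left (ps_abs hρ x y _) (by positivity)

theorem tame_le (xs : ℕ → X) (x y : X) : tame ρ xs x y ≤ ρ x y := by
  calc tame ρ xs x y ≤ ∑' n : ℕ, (1 / 2 : ℝ) ^ (n + 1) * ρ x y :=
        (tame_summable hρ xs x y).tsum_le_tsum
          (fun n => mul_le_mul_of_nonneg_left (ps_abs hρ x y _) (by positivity))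
          (half_summable.mul_right (ρ x y))
    _ = ρ x y := by rw [tsum_mul_right, half_tsum, one_mul]

theorem tame_isContPseudo [CompactSpace X] (xs : ℕ → X) : IsContPseudo (tame ρ xs) where
  self x := by simp [tame]
  symm x y := by
    unfold tame
    congr 1
    funext n
    rw [abs_sub_comm]
  tri x y z := by
    unfold tame
    rw [← (tame_summable hρ xs x y).tsum_add (tame_summable hρ xs y z)]
    refine (tame_summable hρ xs x z).tsum_le_tsum (fun n => ?_)
      ((tame_summable hρ xs x y).add (tame_summable hρ xs y z))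
    rw [← mul_add]
    refine mul_le_mul_of_nonneg_left ?_ (by positivity)
    exact abs_sub_le _ _ _
  cont := by
    obtain ⟨D, hD⟩ : ∃ D : ℝ, ∀ q : X × X, ρ q.1 q.2 ≤ D := by
      obtain ⟨D, hD⟩ := isCompact_univ.bddAbove_image (hρ.cont.continuousOn (s := Set.univ))
      exact ⟨D, fun q => hD ⟨q, Set.mem_univ _, rfl⟩⟩
    unfold tame
    refine continuous_tsum (u := fun n : ℕ => (1 / 2 : ℝ) ^ (n + 1) * D) (fun n => ?_)
      (half_summable.mul_right D) (fun n q => ?_)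
    · have h1 : Continuous fun q : X × X => ρ q.1 (xs n) :=
        hρ.cont.comp (continuous_fst.prodMk continuous_const)
      have h2 : Continuous fun q : X × X => ρ q.2 (xs n) :=
        hρ.cont.comp (continuous_snd.prodMk continuous_const)
      exact continuous_const.mul (h1.sub h2).abs
    · rw [Real.norm_of_nonneg (by positivity)]
      exact mul_le_mul_of_nonneg_left ((ps_abs hρ _ _ _).trans (hD q)) (by positivity)

theorem eq_zero_of_tame {xs : ℕ → X} (hxs : DenseRange xs) {x y : X}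
    (h : tame ρ xs x y = 0) : ρ x y = 0 := by
  have h1 : ∀ n, ρ x (xs n) = ρ y (xs n) := by
    intro n
    have h2 : (1 / 2 : ℝ) ^ (n + 1) * |ρ x (xs n) - ρ y (xs n)| ≤ tame ρ xs x y :=
      (tame_summable hρ xs x y).le_tsum n (fun m _ => by positivity)
    rw [h] at h2
    have h3 : 0 < (1 / 2 : ℝ) ^ (n + 1) := by positivity
    have h4 : |ρ x (xs n) - ρ y (xs n)| ≤ 0 := by
      by_contra hcon
      push Not at hcon
      have := mul_pos h3 hcon
      linarith
    have h5 := abs_nonpos_iff.mp h4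
    linarith
  have hc1 : Continuous fun z => ρ x z := hρ.cont.comp (continuous_const.prodMk continuous_id)
  have hc2 : Continuous fun z => ρ y z := hρ.cont.comp (continuous_const.prodMk continuous_id)
  have h6 := congrFun (hxs.equalizer hc1 hc2 (funext h1)) y
  rw [h6, hρ.self]

theorem exists_sq_bound [CompactSpace X] {xs : ℕ → X} (hxs : DenseRange xs) {κ : ℝ}
    (hκ : 0 < κ) : ∃ C : ℝ, 0 < C ∧ ∀ x y, ρ x y ^ 2 ≤ κ + C * tame ρ xs x y ^ 2 := by
  obtain ⟨D, hD⟩ : ∃ D : ℝ, ∀ q : X × X, ρ q.1 q.2 ≤ D := by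
    obtain ⟨D, hD⟩ := isCompact_univ.bddAbove_image (hρ.cont.continuousOn (s := Set.univ))
    exact ⟨D, fun q => hD ⟨q, Set.mem_univ _, rfl⟩⟩
  have ht := tame_isContPseudo hρ xs
  set K : Set (X × X) := {q | κ ≤ ρ q.1 q.2 ^ 2} with hK
  have hKc : IsCompact K := (isClosed_le continuous_const (hρ.cont.pow 2)).isCompact
  rcases K.eq_empty_or_nonempty with hE | hne
  · refine ⟨1, one_pos, fun x y => ?_⟩
    have h1 : (x, y) ∉ K := by rw [hE]; simp
    simp only [hK, Set.mem_ofPred_eq, not_le] at h1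
    nlinarith [sq_nonneg (tame ρ xs x y)]
  · obtain ⟨q, hq, hmin⟩ := hKc.exists_isMinOn hne (ht.cont.pow 2).continuousOn
    have hpos : 0 < tame ρ xs q.1 q.2 ^ 2 := by
      rcases eq_or_ne (tame ρ xs q.1 q.2) 0 with h0 | h0
      · have h2 := eq_zero_of_tame hρ hxs h0
        have h3 : κ ≤ ρ q.1 q.2 ^ 2 := hq
        rw [h2] at h3
        norm_num at h3
        linarith
      · positivity
    refine ⟨(D ^ 2 + 1) / tame ρ xs q.1 q.2 ^ 2, by positivity, fun x y => ?_⟩
    by_cases hxy : (x, y) ∈ K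
    · have h1 : tame ρ xs q.1 q.2 ^ 2 ≤ tame ρ xs x y ^ 2 := hmin hxy
      have h2 : ρ x y ^ 2 ≤ D ^ 2 := by
        have := hD (x, y)
        have h0 := ps_nonneg hρ x y
        simp only at this
        nlinarith
      have h3 : D ^ 2 + 1 ≤ (D ^ 2 + 1) / tame ρ xs q.1 q.2 ^ 2 * tame ρ xs x y ^ 2 := by
        rw [div_mul_eq_mul_div, le_div_iff₀ hpos]
        exact mul_le_mul_of_nonneg_left h1 (by positivity)
      linarith
    · simp only [hK, Set.mem_ofPred_eq, not_le] at hxy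
      have : 0 ≤ (D ^ 2 + 1) / tame ρ xs q.1 q.2 ^ 2 * tame ρ xs x y ^ 2 := by positivity
      linarith

/-- the cells of the tame pseudometric. -/
theorem exists_cell {D : ℝ} (hD : ∀ x y, ρ x y ≤ D) (xs : ℕ → X) {ε : ℝ} (hε : 0 < ε)
    (n : ℕ) (hn : 2 * D / ε ≤ 2 ^ n) :
    ∃ cell : X → Fin ((2 ^ n + 1) ^ n), ∀ x y, cell x = cell y → tame ρ xs x y < ε := by
  have hfl : ∀ (x : X) (k : ℕ), ⌊ρ x (xs k) / (ε / 2)⌋₊ < 2 ^ n + 1 := by
    intro x k
    have h1 : ρ x (xs k) / (ε / 2) ≤ ((2 ^ n : ℕ) : ℝ) := by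
      push_cast
      refine le_trans ?_ hn
      rw [div_div_eq_mul_div]
      refine div_le_div_of_nonneg_right ?_ hε.le
      linarith [hD x (xs k)]
    have h2 := Nat.floor_le_floor h1
    rw [Nat.floor_natCast] at h2
    omega
  refine ⟨fun x => finFunctionFinEquiv (fun k : Fin n =>
    (⟨⌊ρ x (xs k) / (ε / 2)⌋₊, hfl x k⟩ : Fin (2 ^ n + 1))), fun x y hxy => ?_⟩
  have h1 := finFunctionFinEquiv.injective hxy
  have h2 : ∀ k < n, |ρ x (xs k) - ρ y (xs k)| ≤ ε / 2 := by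
    intro k hk
    have h3 := congrFun h1 ⟨k, hk⟩
    have h4 : ⌊ρ x (xs k) / (ε / 2)⌋₊ = ⌊ρ y (xs k) / (ε / 2)⌋₊ := by
      simpa using congrArg Fin.val h3
    have ha : 0 ≤ ρ x (xs k) / (ε / 2) := div_nonneg (ps_nonneg hρ _ _) (by positivity)
    have hb : 0 ≤ ρ y (xs k) / (ε / 2) := div_nonneg (ps_nonneg hρ _ _) (by positivity)
    have a1 := Nat.floor_le ha
    have a2 := Nat.lt_floor_add_one (ρ x (xs k) / (ε / 2))
    have b1 := Nat.floor_le hb
    have b2 := Nat.lt_floor_add_one (ρ y (xs k) / (ε / 2))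
    rw [h4] at a1 a2
    have h5 : |ρ x (xs k) / (ε / 2) - ρ y (xs k) / (ε / 2)| ≤ 1 := by
      rw [abs_le]; constructor <;> linarith
    rw [← sub_div, abs_div, abs_of_pos (by positivity : 0 < ε / 2),
      div_le_one (by positivity)] at h5
    exact h5
  have hsum := (tame_summable hρ xs x y).sum_add_tsum_nat_add n
  have hfirst : ∑ k ∈ Finset.range n, (1 / 2 : ℝ) ^ (k + 1) * |ρ x (xs k) - ρ y (xs k)|
      ≤ (1 - (1 / 2 : ℝ) ^ n) * (ε / 2) := by
    have hgeo : ∀ m : ℕ, ∑ k ∈ Finset.range m, (1 / 2 : ℝ) ^ (k + 1) = 1 - (1 / 2 : ℝ) ^ m := by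
      intro m
      induction m with
      | zero => simp
      | succ m ih => rw [Finset.sum_range_succ, ih]; ring
    calc ∑ k ∈ Finset.range n, (1 / 2 : ℝ) ^ (k + 1) * |ρ x (xs k) - ρ y (xs k)|
        ≤ ∑ k ∈ Finset.range n, (1 / 2 : ℝ) ^ (k + 1) * (ε / 2) :=
          Finset.sum_le_sum fun k hk => mul_le_mul_of_nonneg_left
            (h2 k (Finset.mem_range.mp hk)) (by positivity)
      _ = (1 - (1 / 2 : ℝ) ^ n) * (ε / 2) := by rw [← Finset.sum_mul, hgeo]
  have hsecond : ∑' k : ℕ, (1 / 2 : ℝ) ^ (k + n + 1) *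
      |ρ x (xs (k + n)) - ρ y (xs (k + n))| ≤ ε / 2 := by
    have hs1 : Summable (fun k : ℕ => (1 / 2 : ℝ) ^ (k + n + 1) *
        |ρ x (xs (k + n)) - ρ y (xs (k + n))|) :=
      (summable_nat_add_iff n).mpr (tame_summable hρ xs x y)
    have hs2 : Summable (fun k : ℕ => (1 / 2 : ℝ) ^ (k + 1) * ((1 / 2 : ℝ) ^ n * D)) :=
      half_summable.mul_right _
    calc ∑' k : ℕ, (1 / 2 : ℝ) ^ (k + n + 1) * |ρ x (xs (k + n)) - ρ y (xs (k + n))|
        ≤ ∑' k : ℕ, (1 / 2 : ℝ) ^ (k + 1) * ((1 / 2 : ℝ) ^ n * D) := by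
          refine hs1.tsum_le_tsum (fun k => ?_) hs2
          have h6 : (1 / 2 : ℝ) ^ (k + n + 1) = (1 / 2 : ℝ) ^ (k + 1) * (1 / 2 : ℝ) ^ n := by
            rw [← pow_add]; congr 1; ring
          rw [h6, mul_assoc]
          refine mul_le_mul_of_nonneg_left ?_ (by positivity)
          exact mul_le_mul_of_nonneg_left ((ps_abs hρ _ _ _).trans (hD _ _)) (by positivity)
      _ = (1 / 2 : ℝ) ^ n * D := by rw [tsum_mul_right, half_tsum, one_mul]
      _ ≤ ε / 2 := by
          have h7 : (0 : ℝ) < 2 ^ n := by positivity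
          rw [div_le_iff₀ hε] at hn
          rw [one_div, inv_pow, inv_mul_le_iff₀ h7]
          linarith
  have hlt : (0 : ℝ) < (1 / 2 : ℝ) ^ n * (ε / 2) := by positivity
  unfold tame
  rw [← hsum]
  linarith

end

end Run7.h276.PMD
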